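import Pool.Agent.E8helper56.TW.Ndg
import Pool.Agent.E8helper1.TW.AsmQ

/-!
# The theorem on the level of matrices, with the radical of the trace form
-/

set_option autoImplicit false
set_option linter.unusedSectionVars false

open Matrix Module

namespace Pool.Agent.E8helper56.TW

open Pool.Agent.E8helper1.TX Pool.Agent.E8helper56.TX Pool.Agent.E8helper41.TX
open Pool.Agent.E8helper56.TY
open Pool.Agent.E8helper63.TX (t_DIM1 t_DIM2 t_DIM3 slice_mem mul_map_map exists_dual_ne)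
open Pool.Agent.E8helper1.CT
open Pool.Agent.E8helper1.AP (Jb exists_jb fK fK_unit)
open Pool.Agent.E8helper1.TW

variable {ℓ : ℕ} [Fact ℓ.Prime] {n : Type} [Fintype n] [DecidableEq n] {Γ : Type} [Group Γ]
  [Algebra ℚ_[ℓ] ℂ] {P : Matrix n n ℂ} {m : ℕ}

/-- the radical of the trace form and the complex numbers -/
theorem rad_map (hP : IsUnit P.det)
    (S : Submodule ℚ_[ℓ] (Matrix (Fin m → n) (Fin m → n) ℚ_[ℓ])) :
    (bcM ℚ_[ℓ] (rad S)).map (cjm P m) ≤ rad ((bcM ℚ_[ℓ] S).map (cjm P m)) := by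
  rintro _ ⟨A, hA, rfl⟩
  have hle : rad S ≤ S := fun A hA => hA.1
  refine ⟨⟨A, bcM_mono hle hA, rfl⟩, ?_⟩
  rintro _ ⟨B, hB, rfl⟩
  rw [← cjm_mul hP, trace_cjm hP]
  have h1 : ∀ C ∈ S, (A * C.map (algebraMap ℚ_[ℓ] ℂ)).trace = 0 := by
    intro C hC
    refine Submodule.span_induction (p := fun A _ =>
      (A * C.map (algebraMap ℚ_[ℓ] ℂ)).trace = 0) ?_ ?_ ?_ ?_ hA
    · rintro _ ⟨M, hM, rfl⟩
      have h2 := hM.2 C hC
      change (M.map (algebraMap ℚ_[ℓ] ℂ) * C.map (algebraMap ℚ_[ℓ] ℂ)).trace = 0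
      rw [← map_mul']
      have h3 : ((M * C).map (algebraMap ℚ_[ℓ] ℂ)).trace = algebraMap ℚ_[ℓ] ℂ (M * C).trace := by
        simp only [Matrix.trace, Matrix.diag_apply, Matrix.map_apply, map_sum]
      rw [h3, h2, map_zero]
    · rw [Matrix.zero_mul, Matrix.trace_zero]
    · intro x y _ _ hx hy
      rw [Matrix.add_mul, Matrix.trace_add, hx, hy, add_zero]
    · intro c x _ hx
      rw [Matrix.smul_mul, Matrix.trace_smul, hx, smul_zero]
  refine Submodule.span_induction (p := fun B _ => (A * B).trace = 0) ?_ ?_ ?_ ?_ hB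
  · rintro _ ⟨C, hC, rfl⟩
    exact h1 C hC
  · rw [Matrix.mul_zero, Matrix.trace_zero]
  · intro x y _ _ hx hy
    rw [Matrix.mul_add, Matrix.trace_add, hx, hy, add_zero]
  · intro c x _ hx
    rw [Matrix.mul_smul, Matrix.trace_smul, hx, smul_zero]

theorem t_ASMQ2 (hABS : S_ABS2) (hCJ : S_CJ) (hMET : S_MET) (hDCA : S_DCA) (hDCB : S_DCB)
    (hWSL : S_WSL) : S_ASMQ2 := by
  intro ℓ _ _ n _ _ Γ _ D d W S P0 hP0 hle hn
  classical
  obtain ⟨P, hP, hstar⟩ := exists_P hMET hDCB D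
  obtain ⟨P1, hP1⟩ := hCJ n P0 P hP
  have hST : ∀ m, P1.S m ≤ TC D P m := by
    intro m
    rw [hP1 m, hP0 m]
    exact Submodule.map_mono (bcM_mono (hle m))
  have hpp : cj P D.p * cj P D.p = 1 := by
    rw [← cj_mul hP, D.p_mul, cj_one hP]
  have hTD : TD (TC D P) (cj P D.p) :=
    { tens_one := TC_tens hP D
      p_mul := hpp
      p_mem := TC_p hP D
      p_fix := TC_fixes hP D
      L1 := TC_L1 hP D
      L2 := TC_L2 hP D
      DC := dcc hDCA hP D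
      star := hstar }
  let J : ∀ γ : Γ, Jb (Matrix.toLin' ((D.R γ).map (algebraMap ℚ_[ℓ] ℂ))) := fun γ =>
    Classical.choice (exists_jb _)
  have hweil : ∀ γ ∈ W.F, ∃ (Λ : Set (Additive ℂˣ →+ ℂ)) (V : Set ℂˣ),
      (∀ q, ∀ h : (J γ).lam q ≠ 0, Units.mk0 ((J γ).lam q) h ∈ V) ∧
      (∀ s ∈ Λ, ∀ lam ∈ V, ∃ z : ℤ, |z| ≤ ((2 * d + 1) * (Fintype.card n).factorial : ℕ) ∧
        s (Additive.ofMul lam) = z) ∧
      ∀ u ∈ Subgroup.closure V, (∀ s ∈ Λ, s (Additive.ofMul u) = 0) →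
        u ^ (2 * (Fintype.card n).factorial).factorial = 1 := by
    intro γ hγ
    obtain ⟨q, Pi, hq, hmon, hdeg, hroot, hsl, hchar⟩ := W.weil γ hγ
    obtain ⟨Λ, h1, h2⟩ := hWSL (Fintype.card n) d W.e q W.e_pos hq Pi hmon hdeg hroot hsl
    exact ⟨Λ, {lam : ℂˣ | IsW q W.e Pi lam}, fun q h => hchar _ (lam_root (J γ) q), h1, h2⟩
  choose! Λ V hV1 hV2 hV3 using hweil
  have hlam : ∀ γ q, (J γ).lam q ≠ 0 := fun γ => lam_ne (J γ) (RC_inj D γ)
  have hfac : 1 ≤ (Fintype.card n).factorial := Nat.factorial_pos _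
  have main := hABS n (TC D P) (cj P D.p) hTD ((2 * d + 1) * (Fintype.card n).factorial)
    (by nlinarith)
    {x | ∃ γ ∈ W.F, ∃ s ∈ Λ γ, x = P⁻¹ * slopM (J γ) s * P}
    (by
      rintro _ ⟨γ, hγ, s, hs, rfl⟩
      refine slope_int hP (J γ) s _ fun q => ?_
      obtain ⟨z, hz1, hz2⟩ := hV2 γ hγ s hs _ (hV1 γ hγ q (hlam γ q))
      exact ⟨z, hz1, (fK_unit s (Units.mk0 _ (hlam γ q))).trans hz2⟩)
    (by
      rintro _ ⟨γ, hγ, s, hs, rfl⟩
      exact slope_ann D hP γ (J γ) s)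
    (by
      intro k c v u hc hv hu hEv hEu hL
      refine det_char hP D W.F W.M W.M_pos W.dense (2 * (Fintype.card n).factorial).factorial
        (Nat.factorial_pos _) k c v u hc hv hu hEv hEu ?_
      intro γ hγ j a b ha hb e1 e2
      exact key_gamma hP D γ k _ (vecMulVec_ne hv hu) j a b ha hb e1 e2 (J γ) (Λ γ)
        (fun s hs => hL _ ⟨γ, hγ, s, hs, rfl⟩) (V γ) (hV1 γ hγ) _ (hV3 γ hγ))
    (M5 (Fintype.card n) d) rfl P1 hST
  have hmono : ∀ m, PotOp D.R D.p m ≤ S m → TC D P m ≤ P1.S m := by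
    intro m h
    rw [hP1 m, hP0 m]
    exact Submodule.map_mono (bcM_mono h)
  refine ⟨fun m => ?_, fun h m => ?_, ?_⟩
  · rw [eq_bot_iff]
    intro A hA
    have h1 : cjm P m (A.map (algebraMap ℚ_[ℓ] ℂ)) ∈ rad (TC D P m) :=
      rad_map hP (PotOp D.R D.p m) ⟨_, mem_bcM hA, rfl⟩
    rw [main.1 m, Submodule.mem_bot] at h1
    have h2 : A.map (algebraMap ℚ_[ℓ] ℂ) = 0 := cjm_inj hP (by rw [h1, map_zero])
    rw [Submodule.mem_bot]
    ext i j
    have h3 := congrFun (congrFun h2 i) j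
    rw [Matrix.map_apply, Matrix.zero_apply] at h3
    rw [Matrix.zero_apply]
    exact (algebraMap ℚ_[ℓ] ℂ).injective (h3.trans (map_zero _).symm)
  · have h1 := main.2.1 (hmono _ h) m
    have e1 : finrank ℂ (TC D P m) = finrank ℚ_[ℓ] (PotOp D.R D.p m) := by
      rw [TC, finrank_map_cjm hP, t_DIM1]
    have e2 : finrank ℂ (P1.S m) = finrank ℚ_[ℓ] (S m) := by
      rw [hP1 m, finrank_map_cjm hP, hP0 m, t_DIM1]
    have e3 : finrank ℚ_[ℓ] (rad (S m)) ≤ finrank ℂ (rad (P1.S m)) := by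
      have h2 : finrank ℚ_[ℓ] (rad (S m)) =
          finrank ℂ ((bcM ℚ_[ℓ] (rad (S m))).map (cjm P m)) := by
        rw [finrank_map_cjm hP, t_DIM1]
      rw [h2, hP1 m, hP0 m]
      exact Submodule.finrank_mono (rad_map hP (S m))
    rw [e1, e2] at h1
    exact (Nat.add_le_add_left (Nat.mul_le_mul_left _ e3) _).trans h1
  · intro m hm hTm j
    have h3 := main.2.2 m hm (hmono _ hTm) j
    refine le_antisymm ?_ (hle j)
    rw [TC, hP1 j, hP0 j] at h3
    have h4 : bcM ℚ_[ℓ] (PotOp D.R D.p j) = bcM ℚ_[ℓ] (S j) :=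
      Submodule.map_injective_of_injective (cjm_inj hP) h3
    intro M hM
    exact t_DIM2 ℚ_[ℓ] (Fin j → n) (S j) M (h4.le (mem_bcM hM))

end Pool.Agent.E8helper56.TW
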