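import Pool.Agent.E8helper1.TW.Stm
import Pool.Agent.E8helper56.TY.Kill

set_option autoImplicit false
set_option linter.unusedSectionVars false

/-!
# What commutes with the tensors of bounded degree commutes with all, without adjoints in that degree
-/

open Matrix

noncomputable section

namespace Pool.Agent.E8helper56.TW

open Pool.Agent.E8helper1.TX Pool.Agent.E8helper56.TX Pool.Agent.E8helper56.TY
open Pool.Agent.E8helper1.TW (S_KILL TD brk)

theorem t_KILL : S_KILL := by
  intro n _ _ _ T p hT hdec hzstar w hw L0 hL0 hL0A hdet M0 hM0 x hx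
  have hM2 : 2 ≤ M0 := by
    rw [hM0]
    have h1 : 0 < (Fintype.card n).factorial * w ^ (Fintype.card n - 1) :=
      Nat.mul_pos (Nat.factorial_pos _) (pow_pos (by omega) _)
    omega
  -- the larger Lie algebra
  let LS : Set (Matrix n n ℂ) := {y | ∀ A ∈ T M0, A * dpow y M0 = dpow y M0 * A}
  have hAS : ∀ y ∈ Ann T, y ∈ LS := fun y hy A hA => hy M0 A hA
  have hlow : ∀ y ∈ LS, ∀ k ≤ M0, ∀ A ∈ T k, A * dpow y k = dpow y k * A := by
    intro y hy k hk A hA
    obtain ⟨j, rfl⟩ := Nat.exists_eq_add_of_le hk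
    exact comm_down (hy _ (hT.tens_one k j A hA))
  have hsub : ∀ y ∈ LS, ∀ y' ∈ LS, y - y' ∈ LS := by
    intro y hy y' hy' A hA
    have h1 : dpow (y - y') M0 = dpow y M0 - dpow y' M0 := by
      have h2 : y - y' = y + (-1 : ℂ) • y' := by rw [neg_one_smul, sub_eq_add_neg]
      rw [h2, TX.dpow_add, TX.dpow_smul, neg_one_smul, sub_eq_add_neg]
    rw [h1, Matrix.mul_sub, Matrix.sub_mul, hy A hA, hy' A hA]
  have hT1 : ∀ y ∈ LS, ∀ a, o1 a ∈ T 1 → a * y = y * a := by
    intro y hy a ha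
    exact (o1_comm a y).1 (hlow y hy 1 (by omega) _ ha)
  have hone : (1 : Matrix n n ℂ) ∈ Ann T := by
    have h := kills_scalar T 1
    rwa [one_smul] at h
  obtain ⟨y, z, c, hyz, hy, hz1, hz⟩ := hT.L1 x (hlow x hx 2 hM2)
  -- the central part
  have hzS : z ∈ LS := by
    have h1 : z = (x - y) - c • 1 := by rw [hyz]; abel
    rw [h1]
    exact hsub _ (hsub _ hx _ (hAS y hy)) _ (hAS _ ((Ann T).smul_mem c hone))
  suffices hzA : z ∈ Ann T by
    rw [hyz]
    exact (Ann T).add_mem ((Ann T).add_mem hy hzA) ((Ann T).smul_mem c hone)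
  have ho1 : ∀ a b : Matrix n n ℂ, o1 (a - b) = o1 a - o1 b := by
    intro a b
    ext I J
    rfl
  let Z : Submodule ℂ (Matrix n n ℂ) :=
    { carrier := {a | a ∈ Ann T ∧ o1 a ∈ T 1}
      zero_mem' := ⟨(Ann T).zero_mem, by
        have h1 : (o1 (0 : Matrix n n ℂ)) = 0 := by
          ext I J
          rfl
        rw [h1]
        exact (T 1).zero_mem⟩
      add_mem' := fun {a b} ha hb => ⟨(Ann T).add_mem ha.1 hb.1, by
        have h1 : o1 (a + b) = o1 a + o1 b := by
          ext I J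
          rfl
        rw [h1]
        exact (T 1).add_mem ha.2 hb.2⟩
      smul_mem' := fun r a ha => ⟨(Ann T).smul_mem r ha.1, by
        have h1 : o1 (r • a) = r • o1 a := by
          ext I J
          rfl
        rw [h1]
        exact (T 1).smul_mem r ha.2⟩ }
  have hZ : ∀ a, a ∈ Z ↔ a ∈ Ann T ∧ o1 a ∈ T 1 := fun a => Iff.rfl
  obtain ⟨Pz, hP1, hP2⟩ := exists_proj Z
  set c0 : Matrix n n ℂ := z - Pz z with hc0
  have hPz := (hZ _).1 (hP1 z)
  have hcS : c0 ∈ LS := hsub z hzS _ (hAS _ hPz.1)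
  have hcT : o1 c0 ∈ T 1 := by
    rw [hc0, ho1]
    exact (T 1).sub_mem hz1 hPz.2
  have hcTH : o1 c0ᴴ ∈ T 1 := hT.star c0 hcT
  have horthZ : ∀ a ∈ Z, (aᴴ * c0).trace = 0 := fun a ha => hP2 z a ha
  have horthZ' : ∀ a ∈ Z, (c0ᴴ * a).trace = 0 := by
    intro a ha
    have h1 := congrArg star (horthZ a ha)
    rw [← Matrix.trace_conjTranspose, Matrix.conjTranspose_mul,
      Matrix.conjTranspose_conjTranspose, star_zero] at h1
    exact h1
  have hcommA : ∀ a ∈ Ann T, c0ᴴ * a = a * c0ᴴ := fun a ha => hT1 a (hAS a ha) _ hcTH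
  have hbrk : ∀ u ∈ brk (Ann T), (c0ᴴ * u).trace = 0 := by
    intro u hu
    unfold brk at hu
    induction hu using Submodule.span_induction with
    | mem u hu =>
      obtain ⟨a, ha, b, hb, rfl⟩ := hu
      have h1 : (c0ᴴ * (a * b - b * a)).trace = ((c0ᴴ * a - a * c0ᴴ) * b).trace := by
        rw [Matrix.mul_sub, Matrix.sub_mul, Matrix.trace_sub, Matrix.trace_sub, ← Matrix.mul_assoc,
          ← Matrix.mul_assoc, Matrix.trace_mul_comm (c0ᴴ * b) a, ← Matrix.mul_assoc]
      rw [h1, hcommA a ha, sub_self, Matrix.zero_mul, Matrix.trace_zero]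
    | zero => rw [Matrix.mul_zero, Matrix.trace_zero]
    | add a b _ _ iha ihb => rw [Matrix.mul_add, Matrix.trace_add, iha, ihb, add_zero]
    | smul r a _ iha => rw [Matrix.mul_smul, Matrix.trace_smul, iha, smul_zero]
  have horth : ∀ y ∈ Ann T, (c0ᴴ * y).trace = 0 := by
    intro y hy
    obtain ⟨u, hu, z', hz', hz1', rfl⟩ := hdec y hy
    rw [Matrix.mul_add, Matrix.trace_add, horthZ' z' ((hZ z').2 ⟨hz', hz1'⟩), add_zero]
    exact hbrk u hu
  have hzero : c0 = 0 := by
    refine core_n w hw L0 hL0 c0 ?_ (fun y hy => ?_) (fun y hy => horth y (hL0A y hy)) ?_ ?_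
    · exact (hT1 c0 hcS _ hcTH).symm
    · exact (hT1 y (hAS y (hL0A y hy)) _ hcT).symm
    · have e1 : o1 (1 : Matrix n n ℂ) = 1 := by
        ext I J
        by_cases h : I = J
        · subst h
          simp [o1]
        · have h2 : I 0 ≠ J 0 := fun h3 => h (funext fun i => by
            have : i = 0 := Subsingleton.elim _ _
            rw [this, h3])
          simp [o1, h, h2]
      have h0 : o1 (1 : Matrix n n ℂ) ∈ T 1 := by
        rw [e1]
        refine hT.L2 1 _ (fun y _ => ?_) ?_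
        · rw [Matrix.one_mul, Matrix.mul_one]
        · rw [Matrix.one_mul, Matrix.mul_one]
      have h1 := horthZ 1 ((hZ 1).2 ⟨hone, h0⟩)
      rwa [Matrix.conjTranspose_one, Matrix.one_mul] at h1
    · intro k hk v u hv hu hEv hEu hL
      have h1 := hdet k c0 v u hcT hv hu hEv hEu hL
      exact comm_of_square hv hu hEv hEu (hlow c0 hcS (k + k) (by omega) _ h1)
  rw [hc0, sub_eq_zero] at hzero
  rw [hzero]
  exact hPz.1

end Pool.Agent.E8helper56.TW
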