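import Pool.Agent.E8helper1.TW.Stm2
import Pool.Agent.E8helper56.TY.Weil

set_option autoImplicit false
set_option linter.unusedSectionVars false

/-!
# The slopes of Weil numbers for powers of primes
-/

open IsDedekindDomain NumberField Polynomial

noncomputable section

namespace Pool.Agent.E8helper56.TW

open Pool.Agent.E8helper56.TY
open Pool.Agent.E8helper1.TW (SlopesIn S_WSL)

section field

variable {L : Type} [Field L] [NumberField L]

theorem slopes_fieldQ (ι₀ : L →+* ℂ) (N d e q : ℕ) (he : 0 < e) (hq : q ≠ 0)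
    (P : Fin (2 * d + 1) → ℤ[X]) (hmon : ∀ i, (P i).Monic)
    (hroot : ∀ i (r : ℂ), aeval r (P i) = 0 → ‖r‖ ^ 2 = (q : ℝ) ^ (i : ℕ))
    (hsl : SlopesIn N q P)
    (hB : Module.finrank ℚ L ≤ N.factorial)
    (hL : ∀ i (r : ℂ), aeval r (P i) = 0 → ∃ x : L, ι₀ x = r) :
    ∃ Λ : Set (Additive ℂˣ →+ ℂ),
      (∀ s ∈ Λ, ∀ lam : ℂˣ, IsW q e P lam → ∃ z : ℤ, |z| ≤ ((2 * d + 1) * N.factorial : ℕ) ∧
        s (Additive.ofMul lam) = z) ∧
      ∀ u ∈ Subgroup.closure {lam : ℂˣ | IsW q e P lam}, (∀ s ∈ Λ, s (Additive.ofMul u) = 0) →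
        u ^ (2 * N.factorial).factorial = 1 := by
  have hp0 : (q : ℂ) ≠ 0 := by exact_mod_cast hq
  have hpL : (q : L) ≠ 0 := by exact_mod_cast hq
  have he0 : (e : ℂ) ≠ 0 := by exact_mod_cast he.ne'
  have hN0 : (N.factorial : ℂ) ≠ 0 := by exact_mod_cast (Nat.factorial_pos N).ne'
  -- lifts
  have haev : ∀ (σ : L →+* ℂ) i (x : L), aeval (σ x) (P i) = 0 ↔ aeval x (P i) = 0 := by
    intro σ i x
    have h2 : σ (aeval x (P i)) = aeval (σ x) (P i) := by
      rw [aeval_def, aeval_def, hom_eval₂]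
      congr 1
      exact RingHom.ext_int _ _
    rw [← h2, map_eq_zero]
  have hlift : ∀ lam : ℂˣ, IsW q e P lam → ∃ (i : Fin (2 * d + 1)) (a b x : Lˣ),
      aeval (a : L) (P i) = 0 ∧ aeval (b : L) (P i) = 0 ∧ (a : L) * b = (q : L) ^ (i : ℕ) ∧
      Units.map (ι₀ : L →* ℂ) x = lam ∧ (x : L) * (q : L) ^ ((i : ℕ) * e) = (a : L) ^ (2 * e) := by
    rintro lam ⟨i, α, hα, hlam⟩
    obtain ⟨a, ha⟩ := hL i α hα
    obtain ⟨b, hb⟩ := hL i _ (conj_root _ hα)
    have hab : a * b = (q : L) ^ (i : ℕ) := by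
      apply ι₀.injective
      rw [map_mul, ha, hb, map_pow, map_natCast, Complex.mul_conj, Complex.normSq_eq_norm_sq,
        hroot i α hα]
      push_cast
      rfl
    have ha0 : a ≠ 0 := by
      rintro rfl
      rw [zero_mul] at hab
      exact pow_ne_zero _ hpL hab.symm
    have hb0 : b ≠ 0 := by
      rintro rfl
      rw [mul_zero] at hab
      exact pow_ne_zero _ hpL hab.symm
    have hx0 : a ^ (2 * e) * ((q : L) ^ ((i : ℕ) * e))⁻¹ ≠ 0 :=
      mul_ne_zero (pow_ne_zero _ ha0) (inv_ne_zero (pow_ne_zero _ hpL))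
    refine ⟨i, Units.mk0 a ha0, Units.mk0 b hb0, Units.mk0 _ hx0, ?_, ?_, hab, ?_, ?_⟩
    · rw [Units.val_mk0, ← haev ι₀, ha, hα]
    · rw [Units.val_mk0, ← haev ι₀, hb]
      exact conj_root _ hα
    · apply Units.ext
      rw [Units.coe_map, Units.val_mk0]
      change ι₀ _ = _
      rw [map_mul, map_pow, ha, map_inv₀, map_pow, map_natCast, ← hlam, mul_assoc,
        mul_inv_cancel₀ (pow_ne_zero _ hp0), mul_one]
    · rw [Units.val_mk0, Units.val_mk0, mul_assoc, inv_mul_cancel₀ (pow_ne_zero _ hpL), mul_one]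
  let pu : Lˣ := Units.mk0 (q : L) hpL
  have hint : ∀ i (a : Lˣ), aeval (a : L) (P i) = 0 → IsIntegral ℤ (a : L) := fun i a h =>
    ⟨P i, hmon i, by rwa [aeval_def] at h⟩
  have hord : ∀ (v : HeightOneSpectrum (𝓞 L)) (i : ℕ) (a b x : Lˣ), (a : L) * b = (q : L) ^ i →
      (x : L) * (q : L) ^ (i * e) = (a : L) ^ (2 * e) →
      ordv v (Additive.ofMul a) + ordv v (Additive.ofMul b) = i * ordv v (Additive.ofMul pu) ∧
      ordv v (Additive.ofMul x) = e * (2 * ordv v (Additive.ofMul a) -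
        i * ordv v (Additive.ofMul pu)) := by
    intro v i a b x h1 h2
    have h3 : a * b = pu ^ i := Units.ext (by push_cast; exact h1)
    have h4 : x * pu ^ (i * e) = a ^ (2 * e) := Units.ext (by push_cast; exact h2)
    have h5 := congrArg (fun y : Lˣ => ordv v (Additive.ofMul y)) h3
    have h6 := congrArg (fun y : Lˣ => ordv v (Additive.ofMul y)) h4
    simp only [ofMul_mul, ofMul_pow, map_add, map_nsmul, nsmul_eq_mul] at h5 h6
    refine ⟨h5, ?_⟩
    push_cast at h6
    linarith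
  have hordq : ∀ v : HeightOneSpectrum (𝓞 L), 0 ≤ ordv v (Additive.ofMul pu) := by
    intro v
    refine ordv_nonneg v ?_
    change IsIntegral ℤ (q : L)
    have h7 := isIntegral_algebraMap (R := ℤ) (A := L) (x := (q : ℤ))
    rwa [map_natCast] at h7
  -- the hypothesis on the slopes
  have hslope : ∀ (v : HeightOneSpectrum (𝓞 L)) (i : Fin (2 * d + 1)) (a : Lˣ),
      aeval (a : L) (P i) = 0 → ∃ j : ℕ, (N.factorial : ℤ) * ordv v (Additive.ofMul a) =
        j * ordv v (Additive.ofMul pu) := by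
    intro v i a ha
    obtain ⟨j, hj⟩ := hsl L v i (a : L) ha
    refine ⟨j, ?_⟩
    have e1 : v.valuation L ((a ^ N.factorial : Lˣ) : L) = v.valuation L ((pu ^ j : Lˣ) : L) := by
      rw [Units.val_pow_eq_pow_val, Units.val_pow_eq_pow_val, map_pow, map_pow]
      exact hj
    rw [ordv_eq, ordv_eq, WithZero.exp_inj] at e1
    simp only [ofMul_pow, map_nsmul, nsmul_eq_mul] at e1
    omega
  choose s hs using fun v : HeightOneSpectrum (𝓞 L) =>
    exists_ext ι₀ ((AddMonoidHom.mulLeft ((N.factorial : ℂ) * ((e : ℂ) *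
      ((ordv v (Additive.ofMul pu) : ℤ) : ℂ))⁻¹)).comp ((Int.castAddHom ℂ).comp (ordv v)))
  refine ⟨Set.range s, ?_, ?_⟩
  · rintro _ ⟨v, rfl⟩ lam hlam
    obtain ⟨i, a, b, x, ha, hb, hab, hx, hxa⟩ := hlift lam hlam
    obtain ⟨h1, h2⟩ := hord v i a b x hab hxa
    have h3 := ordv_nonneg v (hint i a ha)
    have h4 := ordv_nonneg v (hint i b hb)
    have h6 := hordq v
    obtain ⟨j, hj⟩ := hslope v i a ha
    have hval : s v (Additive.ofMul lam) = (N.factorial : ℂ) * ((e : ℂ) *
      ((ordv v (Additive.ofMul pu) : ℤ) : ℂ))⁻¹ * ((ordv v (Additive.ofMul x) : ℤ) : ℂ) := by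
      rw [← hx, hs v x]
      rfl
    have h7 : ((i : ℕ) : ℤ) ≤ 2 * d := by
      have := i.2
      omega
    have hNf : (0 : ℤ) < (N.factorial : ℤ) := by exact_mod_cast Nat.factorial_pos N
    rcases h6.eq_or_lt with h0 | h0
    · refine ⟨0, by simp, ?_⟩
      rw [hval, ← h0]
      simp
    · refine ⟨2 * j - (i : ℕ) * N.factorial, ?_, ?_⟩
      · have h8 : (j : ℤ) ≤ (i : ℕ) * N.factorial := by
          have h9 : (j : ℤ) * ordv v (Additive.ofMul pu) ≤
              ((i : ℕ) * N.factorial) * ordv v (Additive.ofMul pu) := by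
            rw [← hj]
            have h10 : ordv v (Additive.ofMul a) ≤ (i : ℕ) * ordv v (Additive.ofMul pu) := by
              linarith
            calc (N.factorial : ℤ) * ordv v (Additive.ofMul a) ≤
                N.factorial * ((i : ℕ) * ordv v (Additive.ofMul pu)) :=
                  mul_le_mul_of_nonneg_left h10 hNf.le
              _ = _ := by ring
          exact le_of_mul_le_mul_right h9 h0
        have h11 : ((i : ℕ) : ℤ) * N.factorial ≤ (2 * d) * N.factorial :=
          mul_le_mul_of_nonneg_right h7 hNf.le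
        push_cast
        rw [abs_le]
        constructor
        · nlinarith
        · nlinarith
      · rw [hval, h2]
        have h9 : ((ordv v (Additive.ofMul pu) : ℤ) : ℂ) ≠ 0 := by exact_mod_cast h0.ne'
        have h10 : (N.factorial : ℂ) * ((ordv v (Additive.ofMul a) : ℤ) : ℂ) =
            j * ((ordv v (Additive.ofMul pu) : ℤ) : ℂ) := by exact_mod_cast hj
        push_cast
        field_simp
        linear_combination 2 * h10
  · intro u hu hsu
    obtain ⟨x, hx, hxn, hxv⟩ : ∃ x : Lˣ, Units.map (ι₀ : L →* ℂ) x = u ∧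
        (∀ σ : L →+* ℂ, ‖σ (x : L)‖ = 1) ∧ ∀ v : HeightOneSpectrum (𝓞 L),
          ordv v (Additive.ofMul pu) = 0 → ordv v (Additive.ofMul x) = 0 := by
      refine Subgroup.closure_induction (p := fun u _ => ∃ x : Lˣ, Units.map (ι₀ : L →* ℂ) x = u ∧
        (∀ σ : L →+* ℂ, ‖σ (x : L)‖ = 1) ∧ ∀ v : HeightOneSpectrum (𝓞 L),
          ordv v (Additive.ofMul pu) = 0 → ordv v (Additive.ofMul x) = 0) ?_ ?_ ?_ ?_ hu
      · intro lam hlam
        obtain ⟨i, a, b, x, ha, hb, hab, hx, hxa⟩ := hlift lam hlam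
        refine ⟨x, hx, fun σ => ?_, fun v hv => ?_⟩
        · have h1 := congrArg (fun y => ‖σ y‖) hxa
          simp only [map_mul, map_pow, map_natCast, norm_mul, norm_pow, Complex.norm_natCast] at h1
          have h2 := hroot i (σ a) ((haev σ i a).2 ha)
          rw [pow_mul ‖σ a‖, h2, ← pow_mul] at h1
          have h3 : (q : ℝ) ^ ((i : ℕ) * e) ≠ 0 := pow_ne_zero _ (by exact_mod_cast hq)
          exact mul_right_cancel₀ h3 (by rw [h1, one_mul])
        · obtain ⟨h1, h2⟩ := hord v i a b x hab hxa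
          have h3 := ordv_nonneg v (hint i a ha)
          have h4 := ordv_nonneg v (hint i b hb)
          rw [hv, mul_zero] at h1
          have h5 : ordv v (Additive.ofMul a) = 0 := by omega
          rw [h2, h5, hv]
          ring
      · exact ⟨1, map_one _, fun σ => by rw [Units.val_one, map_one, norm_one], fun v _ => by
          rw [ofMul_one, map_zero]⟩
      · rintro u u' _ _ ⟨x, hx, hxn, hxv⟩ ⟨x', hx', hxn', hxv'⟩
        refine ⟨x * x', by rw [map_mul, hx, hx'], fun σ => ?_, fun v hv => ?_⟩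
        · rw [Units.val_mul, map_mul, norm_mul, hxn, hxn', one_mul]
        · rw [ofMul_mul, map_add, hxv v hv, hxv' v hv, add_zero]
      · rintro u _ ⟨x, hx, hxn, hxv⟩
        refine ⟨x⁻¹, by rw [map_inv, hx], fun σ => ?_, fun v hv => ?_⟩
        · rw [Units.val_inv_eq_inv_val, map_inv₀, norm_inv, hxn, inv_one]
        · rw [ofMul_inv, map_neg, hxv v hv, neg_zero]
    have hzero : ∀ v : HeightOneSpectrum (𝓞 L), ordv v (Additive.ofMul x) = 0 := by
      intro v
      by_cases h0 : ordv v (Additive.ofMul pu) = 0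
      · exact hxv v h0
      have h1 := hsu (s v) ⟨v, rfl⟩
      rw [← hx, hs v x] at h1
      have h2 : (N.factorial : ℂ) * ((e : ℂ) * ((ordv v (Additive.ofMul pu) : ℤ) : ℂ))⁻¹ *
          ((ordv v (Additive.ofMul x) : ℤ) : ℂ) = 0 := h1
      have h4 : ((ordv v (Additive.ofMul pu) : ℤ) : ℂ) ≠ 0 := by exact_mod_cast h0
      have h3 := (mul_eq_zero.1 h2).resolve_left (mul_ne_zero hN0 (inv_ne_zero (mul_ne_zero he0 h4)))
      exact_mod_cast h3
    have hxi : IsIntegral ℤ (x : L) := integral_of_ordv fun v => (hzero v).ge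
    obtain ⟨k, hk, hxk⟩ := NumberField.Embeddings.pow_eq_one_of_norm_eq_one L ℂ hxi hxn
    have h1 := pow_rexp hk hxk hB
    have h2 : x ^ (2 * N.factorial).factorial = 1 := Units.ext (by push_cast; exact h1)
    rw [← hx, ← map_pow, h2, map_one]

end field

/-- **WSL** -/
theorem t_WSL : S_WSL := by
  intro N d e q he hq P hmon hdeg hroot hsl
  let Q : ℚ[X] := ∏ i, (P i).map (algebraMap ℤ ℚ)
  have hQ0 : Q ≠ 0 := Finset.prod_ne_zero_iff.2 fun i _ => ((hmon i).map _).ne_zero
  have hQd : Q.natDegree ≤ N := by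
    refine le_trans ?_ hdeg
    rw [natDegree_prod_of_monic _ _ fun i _ => (hmon i).map _]
    exact Finset.sum_le_sum fun i _ => natDegree_map_le
  have hnf : NumberField Q.SplittingField := ⟨⟩
  let ι₀ : Q.SplittingField →ₐ[ℚ] ℂ := SplittingField.lift Q (IsAlgClosed.splits _)
  refine slopes_fieldQ (L := Q.SplittingField) ι₀.toRingHom N d e q he hq.ne_zero P hmon hroot hsl
    (by
      convert finrank_splitting Q hQd) ?_
  intro i r hr
  have h1 := (SplittingField.splits Q).image_rootSet ι₀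
  have h2 : r ∈ Q.rootSet ℂ := by
    rw [mem_rootSet]
    refine ⟨hQ0, ?_⟩
    rw [map_prod]
    refine Finset.prod_eq_zero (Finset.mem_univ i) ?_
    rw [aeval_map_algebraMap, hr]
  rw [← h1] at h2
  obtain ⟨x, -, hx⟩ := h2
  exact ⟨x, hx⟩

end Pool.Agent.E8helper56.TW
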