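import Pool.Agent.E8helper1.TW.Abs5
import Pool.Agent.E8helper1.TW.Stm3

/-!
# Limits of spaces with a nondegenerate trace form
-/

set_option autoImplicit false
set_option linter.unusedSectionVars false

namespace Pool.Agent.E8helper56.TW

open Matrix Module Filter Topology
open Pool.Agent.E8helper1.TX Pool.Agent.E8helper56.TX Pool.Agent.E8helper56.TY
open Pool.Agent.E8helper41.TX
open Pool.Agent.E8helper1.TW

variable {n : Type} [Fintype n] [DecidableEq n] {m : ℕ}

theorem trace_cjm {P : Matrix n n ℂ} (hP : IsUnit P.det) (A : Op n m) :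
    (cjm P m A).trace = A.trace := by
  have h : tpow P m * tpow P⁻¹ m = 1 := by
    rw [tpow_mul, Matrix.mul_nonsing_inv _ hP, tpow_one']
  change (tpow P⁻¹ m * A * tpow P m).trace = _
  rw [Matrix.trace_mul_comm, ← Matrix.mul_assoc, h, Matrix.one_mul]

/-- A space with `r` elements whose Gram matrix is invertible. -/
theorem gram_rank {N : Type} [Fintype N] [DecidableEq N] (V : Submodule ℂ (Matrix N N ℂ)) {r : ℕ}
    (B : Fin r → Matrix N N ℂ) (hB : ∀ i, B i ∈ V)
    (hdet : (Matrix.of fun i j => (B i * B j).trace).det ≠ 0) :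
    r + finrank ℂ (rad V) ≤ finrank ℂ V := by
  classical
  let φ : V →ₗ[ℂ] (Fin r → ℂ) :=
    { toFun := fun A i => ((A : Matrix N N ℂ) * B i).trace
      map_add' := fun A A' => by
        funext i
        rw [Submodule.coe_add, Matrix.add_mul, Matrix.trace_add]
        rfl
      map_smul' := fun c A => by
        funext i
        rw [Submodule.coe_smul, Matrix.smul_mul, Matrix.trace_smul]
        rfl }
  set G : Matrix (Fin r) (Fin r) ℂ := Matrix.of fun i j => (B i * B j).trace with hG
  have hGu : IsUnit G.det := isUnit_iff_ne_zero.2 hdet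
  have hsurj : LinearMap.range φ = ⊤ := by
    rw [eq_top_iff]
    rintro w -
    -- `w = G c`
    refine ⟨∑ j, (G⁻¹.vecMul w) j • ⟨B j, hB j⟩, ?_⟩
    funext i
    have h1 : φ (∑ j, (w ᵥ* G⁻¹) j • (⟨B j, hB j⟩ : V)) i = ((w ᵥ* G⁻¹) ᵥ* G) i := by
      rw [map_sum, Finset.sum_apply]
      simp only [Matrix.vecMul, dotProduct]
      refine Finset.sum_congr rfl fun j _ => ?_
      rw [map_smul, Pi.smul_apply, smul_eq_mul]
      rfl
    have h2 : (w ᵥ* G⁻¹) ᵥ* G = w := by
      rw [Matrix.vecMul_vecMul, Matrix.nonsing_inv_mul _ hGu, Matrix.vecMul_one]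
    rw [h2] at h1
    exact h1
  have h1 := LinearMap.finrank_range_add_finrank_ker φ
  rw [hsurj, finrank_top, finrank_fin_fun] at h1
  have h2 : finrank ℂ (rad V) ≤ finrank ℂ (LinearMap.ker φ) := by
    have h3 : rad V ≤ (LinearMap.ker φ).map V.subtype := by
      intro A hA
      refine ⟨⟨A, hA.1⟩, ?_, rfl⟩
      rw [SetLike.mem_coe, LinearMap.mem_ker]
      funext i
      exact hA.2 _ (hB i)
    refine (Submodule.finrank_mono h3).trans ?_
    exact Submodule.finrank_map_le _ _
  omega

/-- The Gram matrix of a basis of a space which is closed under adjoints is invertible. -/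
theorem gram_star {N : Type} [Fintype N] [DecidableEq N] (V : Submodule ℂ (Matrix N N ℂ))
    (hV : ∀ A ∈ V, Aᴴ ∈ V) {r : ℕ} (b : Basis (Fin r) ℂ V) :
    (Matrix.of fun i j => ((b i : Matrix N N ℂ) * (b j : Matrix N N ℂ)).trace).det ≠ 0 := by
  intro h
  obtain ⟨c, hc0, hc⟩ := Matrix.exists_vecMul_eq_zero_iff.2 h
  apply hc0
  -- `a = ∑ c i b i`
  obtain ⟨a, ha⟩ : ∃ a : V, a = ∑ i, c i • b i := ⟨_, rfl⟩
  have h1 : ∀ j, ((a : Matrix N N ℂ) * (b j : Matrix N N ℂ)).trace = 0 := by
    intro j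
    have h2 := congrFun hc j
    simp only [Matrix.vecMul, dotProduct, Matrix.of_apply, Pi.zero_apply] at h2
    rw [ha, Submodule.coe_sum, Finset.sum_mul, Matrix.trace_sum, ← h2]
    refine Finset.sum_congr rfl fun i _ => ?_
    rw [Submodule.coe_smul, Matrix.smul_mul, Matrix.trace_smul, smul_eq_mul]
  have h2 : ∀ B : V, ((a : Matrix N N ℂ) * (B : Matrix N N ℂ)).trace = 0 := by
    intro B
    have h3 : (B : Matrix N N ℂ) = ∑ j, ((b.repr B j • b j : V) : Matrix N N ℂ) := by
      conv_lhs => rw [← b.sum_repr B, Submodule.coe_sum]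
    rw [h3, Finset.mul_sum, Matrix.trace_sum]
    refine Finset.sum_eq_zero fun j _ => ?_
    rw [Submodule.coe_smul, Matrix.mul_smul, Matrix.trace_smul, h1, smul_zero]
  have h3 : (a : Matrix N N ℂ) = 0 := by
    have h4 := h2 ⟨(a : Matrix N N ℂ)ᴴ, hV _ a.2⟩
    rw [Matrix.trace_mul_comm] at h4
    exact eq_zero_of_trace _ h4
  have h4 : a = 0 := Subtype.ext h3
  rw [ha] at h4
  have h5 := b.linearIndependent
  rw [Fintype.linearIndependent_iff] at h5
  funext i
  exact h5 c h4 i

/-- **Lemma NDG**. -/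
theorem ndg (V V' : Submodule ℂ (Op n m)) (hV' : ∀ A ∈ V', Aᴴ ∈ V') (g : ℕ → Matrix n n ℂ)
    (hg : ∀ k, IsUnit (g k).det)
    (hlim : ∀ a ∈ V', ∃ A : ℕ → Op n m, (∀ k, A k ∈ V.map (cjm (g k)⁻¹ m)) ∧
      Tendsto A atTop (𝓝 a)) :
    finrank ℂ V' + finrank ℂ (rad V) ≤ finrank ℂ V := by
  classical
  let b : Basis (Fin (finrank ℂ V')) ℂ V' := finBasis ℂ V'
  have hb := gram_star V' hV' b
  choose A hA hAb using fun i => hlim (b i : Op n m) (b i).2
  have hgi : ∀ k, IsUnit (g k)⁻¹.det := fun k => by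
    rw [Matrix.isUnit_nonsing_inv_det_iff]
    exact hg k
  -- the determinants converge
  have htd : Tendsto (fun k => (Matrix.of fun i j => (A i k * A j k).trace).det) atTop
      (𝓝 (Matrix.of fun i j => ((b i : Op n m) * (b j : Op n m)).trace).det) := by
    have h1 : Tendsto (fun k => (Matrix.of fun i j => (A i k * A j k).trace :
        Matrix (Fin (finrank ℂ V')) (Fin (finrank ℂ V')) ℂ)) atTop
        (𝓝 (Matrix.of fun i j => ((b i : Op n m) * (b j : Op n m)).trace)) := by
      refine tendsto_pi_nhds.2 fun i => tendsto_pi_nhds.2 fun j => ?_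
      have h2 : Tendsto (fun k => A i k * A j k) atTop
          (𝓝 ((b i : Op n m) * (b j : Op n m))) := (hAb i).mul (hAb j)
      exact ((continuous_id.matrix_trace).tendsto _).comp h2
    exact ((continuous_id.matrix_det).tendsto _).comp h1
  have hev := htd.eventually_ne hb
  obtain ⟨k, hk⟩ := hev.exists
  choose B hB hBA using fun i => hA i k
  refine gram_rank V B hB ?_
  have h1 : (Matrix.of fun i j => (A i k * A j k).trace :
      Matrix (Fin (finrank ℂ V')) (Fin (finrank ℂ V')) ℂ) =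
      Matrix.of fun i j => (B i * B j).trace := by
    ext i j
    rw [Matrix.of_apply, Matrix.of_apply, ← hBA i, ← hBA j, ← cjm_mul (hgi k),
      trace_cjm (hgi k)]
  rw [← h1]
  exact hk

end Pool.Agent.E8helper56.TW
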